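import Pool.Agent.Helper67.RV.COErvx
import Pool.Agent.Helper27.RV.SeqLt
import Pool.Agent.Helper6.RV.LamJ
import Pool.Agent.Helper4.RV.GJ
import Pool.Agent.Helper80.RV.Defs

/-!
# RX13: points in towers, closed subschemes which intersect properly, chosen at each place of the residue field

After `fin_rvx` of `Pool/Agent/Helper99/RV/FIN2.lean`.
-/

set_option autoImplicit false
set_option linter.unusedSectionVars false

namespace Pool.Agent.SQ.RV

open NumberField Filter Module MvPolynomial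
open Pool.Agent.Helper64.Vojta (Pl nv sn above)
open Pool.Agent.Helper52.Vojta (ldeg)
open Pool.Agent.V2
open Pool.Agent.Chart (fld dg crd hgt)
open Pool.Agent.ZS (HQ mem_HQ)

universe u

section

variable {k : Type u} [Field k] [NumberField k]

/-! ### points -/

private theorem val_crd_rvx {N : ℕ} (x : Fin (N + 1) → AlgebraicClosure k) (f : MvPolynomial (Fin (N + 1)) k) :
    ((aeval (crd x) f : fld x) : AlgebraicClosure k) = aeval x f := by
  have h1 := MvPolynomial.comp_aeval_apply (f := crd x) (fld x).val f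
  exact h1

private theorem val_y_rvx {N : ℕ} (x : Fin (N + 1) → AlgebraicClosure k) (y : Fin (N + 1) → gal x)
    (hy : ∀ j, (y j : AlgebraicClosure k) = x j) (f : MvPolynomial (Fin (N + 1)) k) :
    ((aeval y f : gal x) : AlgebraicClosure k) = aeval x f := by
  have h1 := MvPolynomial.comp_aeval_apply (f := y) (gal x).val f
  have h2 : (fun j => (gal x).val (y j)) = x := funext hy
  rw [h2] at h1
  exact h1

private theorem ne_iff_rvx {N : ℕ} (x : Fin (N + 1) → AlgebraicClosure k) (y : Fin (N + 1) → gal x)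
    (hy : ∀ j, (y j : AlgebraicClosure k) = x j) (f : MvPolynomial (Fin (N + 1)) k) : aeval y f = 0 ↔ aeval x f = 0 := by
  rw [← val_y_rvx x y hy f]
  exact ZeroMemClass.coe_eq_zero.symm

private theorem crd_iff_rvx {N : ℕ} (x : Fin (N + 1) → AlgebraicClosure k) (f : MvPolynomial (Fin (N + 1)) k) :
    aeval (crd x) f = 0 ↔ aeval x f = 0 := by
  rw [← val_crd_rvx x f]
  exact ZeroMemClass.coe_eq_zero.symm

end

/-- RX13 -/
theorem fin_rvx {k : Type u} [Field k] [NumberField k] {N q e r : ℕ} (hr : 0 < r)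
    (P : Ideal (MvPolynomial (Fin (N + 1)) k)) [P.IsPrime] (hP : ∀ p ∈ P, ∀ m, homogeneousComponent m p ∈ P)
    (d : Fin q → Fin e → ℕ) (f : Fin q → Fin e → MvPolynomial (Fin (N + 1)) k) (hf : ∀ i j, (f i j).IsHomogeneous (d i j))
    (β : Fin q → ℝ) (hβ0 : ∀ i, 0 < β i) (hβ : ∀ i, ∀ δ : ℝ, 0 < δ → ∀ᶠ m : ℕ in atTop, ∃ K : ℕ,
      (β i - δ) * (m * hilb P m) ≤ ∑ x ∈ Finset.range K, (dimf P (sat (P ⊔ idl f i ^ (x + 1))) m : ℝ))
    {ε : ℝ} (hε : 0 < ε) :
    ∃ Q : MvPolynomial (Fin (N + 1)) k, Q ∉ P ∧ (∃ e, Q.IsHomogeneous e) ∧ ∀ S : Finset (Pl k), ∃ C : ℝ,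
      ∀ x : Fin (N + 1) → AlgebraicClosure k, (∃ j, x j = 1) → (∀ p ∈ P, aeval x p = 0) → InTower r x →
        (∀ i, ∃ j, aeval (crd x) (f i j) ≠ 0) → aeval x Q ≠ 0 →
        ∀ T : Pl (fld x) → Finset (Fin q), (∀ w, GenPos P (idl f) (T w)) →
        ∑ ν ∈ S, ∑ w ∈ above (fld x) ν, ∑ i ∈ T w, β i * lamJ (d i) (f i) x w ≤ (r + ε) * hgt x + C := by
  classical
  have hrR : (0 : ℝ) < r := by exact_mod_cast hr
  obtain ⟨Q, hQ, hQh, hcoreQ⟩ := core_ervx P hP d f hf β hβ0 hβ (ε := ε / r) (by positivity)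
  refine ⟨Q, hQ, hQh, fun S => ?_⟩
  by_contra hcon
  have hbad : ∀ C : ℝ, ∃ x : Fin (N + 1) → AlgebraicClosure k, (∃ j, x j = 1) ∧ (∀ p ∈ P, aeval x p = 0) ∧ InTower r x ∧
        (∀ i, ∃ j, aeval (crd x) (f i j) ≠ 0) ∧ aeval x Q ≠ 0 ∧
        ∃ T : Pl (fld x) → Finset (Fin q), (∀ w, GenPos P (idl f) (T w)) ∧
        (r + ε) * hgt x + C < ∑ ν ∈ S, ∑ w ∈ above (fld x) ν, ∑ i ∈ T w, β i * lamJ (d i) (f i) x w := by
    intro C
    by_contra h
    apply hcon
    refine ⟨C, fun x h1 h2 h3 h4 h5 T h6 => ?_⟩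
    by_contra h7
    exact h ⟨x, h1, h2, h3, h4, h5, T, h6, not_le.1 h7⟩
  choose x hx1 hxI hxr hxf hxQ Tx hTx hbig using fun m : ℕ => hbad m
  obtain ⟨G, gG, fG, Hs, H, φ, hφ, hHsub, hHr, hHd, y, M, s, p, hy, hQ', hH, hyH, hpa, hpc, hlW⟩ :=
    exists_seq_lt x hx1 hxr S
  set c : ℝ := (Fintype.card G : ℝ) with hc
  have hc0 : 0 < c := by
    rw [hc]
    exact_mod_cast Fintype.card_pos
  have hφa : ∀ a, a ≤ φ a := fun a => hφ.le_apply
  have hy1 : ∀ a, ∃ j, y a j = 1 := by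
    intro a
    obtain ⟨j, hj⟩ := hx1 (φ a)
    refine ⟨j, Subtype.ext ?_⟩
    rw [hy a j, hj]
    rfl
  have hyx : ∀ a (p : MvPolynomial (Fin (N + 1)) k), aeval (y a) p = 0 ↔ aeval (x (φ a)) p = 0 :=
    fun a p => ne_iff_rvx _ _ (hy a) p
  have hyf : ∀ a, ∀ i, ∃ j, aeval (y a) (f i j) ≠ 0 := by
    intro a i
    obtain ⟨j, hj⟩ := hxf (φ a) i
    exact ⟨j, fun h => hj ((crd_iff_rvx _ _).2 ((hyx a _).1 h))⟩
  -- the sets at the elements of the group
  obtain ⟨J, hJ⟩ : ∃ J : ℕ → Pl k → G → Finset (Fin q), J = fun a v g => Tx (φ a) (p a v g) := ⟨_, rfl⟩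
  have hJgp : ∀ a v g, GenPos P (idl f) (J a v g) := by
    intro a v g
    rw [hJ]
    exact hTx (φ a) (p a v g)
  have hT0 : ∀ (v : Pl k) (g : G), ∃ t : Finset (Fin q), ∀ᶠ a in (hyperfilter ℕ : Filter ℕ), t = J a v g := by
    intro v g
    exact Ultrafilter.eventually_exists_iff.1 (Filter.Eventually.of_forall fun a => ⟨J a v g, rfl⟩)
  choose T0 hT0 using hT0
  have hgp : ∀ v ∈ S, ∀ g, GenPos P (idl f) (T0 v g) := by
    intro v _ g
    obtain ⟨a, ha⟩ := (hT0 v g).exists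
    rw [ha]
    exact hJgp a v g
  -- the index
  have hHs0 : 0 < Nat.card Hs := Nat.card_pos
  have hHi : Nat.card Hs * Hs.index = Fintype.card G := by
    rw [Subgroup.card_mul_index, Nat.card_eq_fintype_card]
  have hdg : ∀ a, dg (x (φ a)) = Hs.index := by
    intro a
    exact Nat.eq_of_mul_eq_mul_left hHs0 ((hHd a).trans hHi.symm)
  set r' : ℕ := Hs.index with hr'
  have hr'0 : 0 < r' := by
    rcases Nat.eq_zero_or_pos r' with h | h
    · rw [h, mul_zero] at hHi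
      exact absurd hHi.symm Fintype.card_ne_zero
    · exact h
  have hr'R0 : (0 : ℝ) < r' := by exact_mod_cast hr'0
  have hHR : (Nat.card Hs : ℝ) * r' = c := by
    rw [hc]
    exact_mod_cast hHi
  -- local degrees
  have hl0 : ∀ (a : ℕ) (v : Pl k), ∀ w ∈ above (fld (x (φ a))) v, (0 : ℝ) < ldeg v w := by
    intro a v w hw
    exact_mod_cast Nat.pos_of_ne_zero (Pool.Agent.QP.ldeg_ne_zero hw)
  -- the local values
  obtain ⟨Γ, hΓ⟩ : ∃ Γ : ℕ → Pl k → G → ℝ, Γ = fun a v g =>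
      ∑ i ∈ J a v g, β i * gamJ (s a) (M a) (y a) (d i) (f i) v g := ⟨_, rfl⟩
  let W : ∀ a, ∀ v : Pl k, Pl (fld (x (φ a))) → ℝ := fun a v w =>
    ∑ i ∈ Tx (φ a) w, β i * lamJ (d i) (f i) (x (φ a)) w
  let X : ℕ → Pl k → ℝ := fun a v => ∑ w ∈ above (fld (x (φ a))) v, W a v w
  have hWΓ : ∀ a, ∀ v ∈ S, ∀ g, r' * W a v (p a v g) = ldeg v (p a v g) * Γ a v g := by
    intro a v hv g
    show (r' : ℝ) * ∑ i ∈ Tx (φ a) (p a v g), β i * lamJ (d i) (f i) (x (φ a)) (p a v g) = _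
    rw [hΓ, hJ, Finset.mul_sum, Finset.mul_sum]
    refine Finset.sum_congr rfl fun i hi => ?_
    have h1 := lamJ_gamJ (x (φ a)) (hx1 (φ a)) (y a) (hy a) (M a) (s a) (hQ' a) v g (p a v g) (hpa a v g)
      (fun d f hf => hlW a v g d f hf) (d i) (f i) (hxf _ i)
    rw [hdg a] at h1
    rw [mul_left_comm, h1, mul_left_comm]
  have hpc' : ∀ a v, ∀ w ∈ above (fld (x (φ a))) v, ((Finset.univ.filter fun g => p a v g = w).card : ℝ) =
      Nat.card Hs * ldeg v w := by
    intro a v w hw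
    have h1 := hpc a v w hw
    rw [Nat.card_eq_fintype_card, Fintype.card_subtype] at h1
    exact_mod_cast h1
  have hGX : ∀ a, ∀ v ∈ S, c * X a v = ∑ g, Γ a v g := by
    intro a v hv
    have hmap : ∀ g ∈ (Finset.univ : Finset G), p a v g ∈ above (fld (x (φ a))) v := fun g _ => hpa a v g
    rw [← Finset.sum_fiberwise_of_maps_to hmap]
    show c * ∑ w ∈ above (fld (x (φ a))) v, W a v w = _
    rw [Finset.mul_sum]
    refine Finset.sum_congr rfl fun w hw => ?_
    have h1 : ∀ g ∈ Finset.univ.filter (fun g => p a v g = w), Γ a v g = r' * W a v w / ldeg v w := by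
      intro g hg
      have h2 := hWΓ a v hv g
      rw [(Finset.mem_filter.1 hg).2] at h2
      rw [h2, mul_div_cancel_left₀ _ (hl0 a v w hw).ne']
    rw [Finset.sum_congr rfl h1, Finset.sum_const, nsmul_eq_mul, hpc' a v w hw, ← hHR]
    have := (hl0 a v w hw).ne'
    field_simp
  have hh0 : ∀ a, 0 ≤ hgt (x a) := fun a => by
    unfold hgt
    exact div_nonneg (Height.logHeight_nonneg _) (Nat.cast_nonneg _)
  have hL : ∀ v i, ∃ C : ℝ, 0 ≤ C ∧ (∀ a, ∑ g, gamJ (s a) (M a) (y a) (d i) (f i) v g ≤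
      (∑ j, d i j : ℕ) * Hg (s a) (M a) (y a) + C) ∧ ∀ a g, -C ≤ gamJ (s a) (M a) (y a) (d i) (f i) v g := by
    intro v i
    obtain ⟨C, h0, h1⟩ := gamJ_sum G (d i) (f i) (hf i) {v}
    obtain ⟨C', h0', h1'⟩ := gamJ_ge G (d i) (f i) (hf i) {v}
    refine ⟨C + C', add_nonneg h0 h0', fun a => ?_, fun a g => ?_⟩
    · have h2 := h1 _ (s a) (M a) (hQ' a) (y a) (hy1 a) (hyf a i)
      rw [Finset.sum_singleton] at h2
      linarith
    · have h2 := h1' _ (s a) (M a) (hQ' a) (y a) (hy1 a) (hyf a i) v (Finset.mem_singleton_self v) g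
      linarith
  choose C2 hC20 hC2 hC3 using hL
  obtain ⟨B, hB⟩ : ∃ B : ℝ, B = ∑ i, β i * (∑ j, d i j : ℕ) := ⟨_, rfl⟩
  have hB0 : 0 ≤ B := by
    rw [hB]
    exact Finset.sum_nonneg fun i _ => mul_nonneg (hβ0 i).le (Nat.cast_nonneg _)
  have hup : ∀ a, c * ∑ v ∈ S, X a v ≤
      (S.card * B) * (c * hgt (x (φ a))) + ∑ v ∈ S, ∑ i, β i * (C2 v i + c * C2 v i) := by
    intro a
    rw [Finset.mul_sum, Finset.sum_congr rfl fun v hv => hGX a v hv]
    have h1 : ∀ v ∈ S, ∑ g, Γ a v g ≤ B * (c * hgt (x (φ a))) + ∑ i, β i * (C2 v i + c * C2 v i) := by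
      intro v hv
      have h2 : ∀ g, Γ a v g ≤ ∑ i, β i * (gamJ (s a) (M a) (y a) (d i) (f i) v g + C2 v i) := by
        intro g
        rw [hΓ]
        have h3 : ∀ i ∈ J a v g, β i * gamJ (s a) (M a) (y a) (d i) (f i) v g ≤
            β i * (gamJ (s a) (M a) (y a) (d i) (f i) v g + C2 v i) := fun i _ =>
          mul_le_mul_of_nonneg_left (by linarith [hC20 v i]) (hβ0 i).le
        refine (Finset.sum_le_sum h3).trans ?_
        refine Finset.sum_le_sum_of_subset_of_nonneg (Finset.subset_univ _) fun i _ _ => ?_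
        exact mul_nonneg (hβ0 i).le (by linarith [hC3 v i a g])
      refine (Finset.sum_le_sum fun g _ => h2 g).trans ?_
      rw [Finset.sum_comm]
      have h4 : ∀ i, ∑ g, β i * (gamJ (s a) (M a) (y a) (d i) (f i) v g + C2 v i) ≤
          β i * ((∑ j, d i j : ℕ) * (c * hgt (x (φ a))) + (C2 v i + c * C2 v i)) := by
        intro i
        rw [← Finset.mul_sum, hH a, Finset.sum_add_distrib, Finset.sum_const, nsmul_eq_mul, Finset.card_univ]
        refine mul_le_mul_of_nonneg_left ?_ (hβ0 i).le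
        have := hC2 v i a
        linarith
      refine (Finset.sum_le_sum fun i _ => h4 i).trans (le_of_eq ?_)
      rw [hB, Finset.sum_mul, ← Finset.sum_add_distrib]
      exact Finset.sum_congr rfl fun i _ => by ring
    refine (Finset.sum_le_sum h1).trans (le_of_eq ?_)
    rw [Finset.sum_add_distrib, Finset.sum_const, nsmul_eq_mul]
    ring
  have hH1 : Tendsto (fun a => Hg (s a) (M a) (y a)) atTop atTop := by
    have h1 : ∀ a : ℕ, (c * a - ∑ v ∈ S, ∑ i, β i * (C2 v i + c * C2 v i)) / ((S.card * B) + 1) ≤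
        Hg (s a) (M a) (y a) := by
      intro a
      rw [← hH a, div_le_iff₀ (by positivity)]
      have h2 := hup a
      have h3 := mul_lt_mul_of_pos_left (hbig (φ a)) hc0
      have h4 : 0 ≤ c * ((r + ε) * hgt (x (φ a))) :=
        mul_nonneg hc0.le (mul_nonneg (by positivity) (hh0 _))
      have h5 : c * (a : ℝ) ≤ c * φ a := mul_le_mul_of_nonneg_left (by exact_mod_cast hφa a) hc0.le
      have h6 : 0 ≤ c * hgt (x (φ a)) := mul_nonneg hc0.le (hh0 _)
      rw [mul_add] at h3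
      have h7 : c * ∑ v ∈ S, ∑ w ∈ above (fld (x (φ a))) v, ∑ i ∈ Tx (φ a) w, β i * lamJ (d i) (f i) (x (φ a)) w =
        c * ∑ v ∈ S, X a v := rfl
      rw [h7] at h3
      linarith
    refine tendsto_atTop_mono h1 ?_
    refine Tendsto.atTop_div_const (by positivity) ?_
    exact tendsto_atTop_add_const_right _ _ (tendsto_natCast_atTop_atTop.const_mul_atTop hc0)
  let D : SqG k G :=
    { U := hyperfilter ℕ
      L := fun a => gal (x (φ a))
      fL := fun a => inferInstance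
      aL := fun a => inferInstance
      s := s
      N := M
      qs := hQ'
      H := fun a => Hg (s a) (M a) (y a)
      H1 := hH1.mono_left Nat.hyperfilter_le_atTop }
  let y' : ∀ a, Fin (N + 1) → D.L a := y
  have hPt : Ptg D y' := ⟨hy1, fun a => rfl⟩
  have hyI : ∀ a, ∀ p ∈ P, aeval (y' a) p = 0 := fun a p hp => (hyx a p).2 (hxI _ p hp)
  have hyQ : ∀ a, aeval (y' a) Q ≠ 0 := fun a h => hxQ (φ a) ((hyx a Q).1 h)
  have hTall : ∀ᶠ a in (D.U : Filter ℕ), ∀ v ∈ S, ∀ g, T0 v g = J a v g := by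
    refine (Finset.eventually_all S).2 fun v _ => ?_
    exact Filter.eventually_all.2 fun g => hT0 v g
  obtain ⟨a, ha, hTa⟩ := ((hcoreQ y' hPt hyI hyQ S T0 hgp hyf H hHsub hyH).and hTall).exists
  have hHa : D.H a = c * hgt (x (φ a)) := (hH a).symm
  have h1 : c * ∑ v ∈ S, X a v =
      ∑ v ∈ S, ∑ g, ∑ i ∈ T0 v g, β i * gamJ (D.s a) (D.N a) (y' a) (d i) (f i) v g := by
    rw [Finset.mul_sum]
    refine Finset.sum_congr rfl fun v hv => ?_
    rw [hGX a v hv, hΓ]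
    refine Finset.sum_congr rfl fun g _ => ?_
    rw [hTa v hv g]
  rw [← h1, hHa] at ha
  have h2 : ∑ v ∈ S, X a v ≤ H.index * (1 + ε / r) * hgt (x (φ a)) := by
    refine le_of_mul_le_mul_left (ha.trans (le_of_eq ?_)) hc0
    ring
  have h3 : H.index * (1 + ε / r) ≤ r + ε := by
    have h4 : (H.index : ℝ) ≤ r := by exact_mod_cast hHr
    have h5 : (H.index : ℝ) * (1 + ε / r) ≤ r * (1 + ε / r) :=
      mul_le_mul_of_nonneg_right h4 (by positivity)
    refine h5.trans (le_of_eq ?_)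
    field_simp
  have h4 := mul_le_mul_of_nonneg_right h3 (hh0 (φ a))
  have h5 : (r + ε) * hgt (x (φ a)) + φ a < ∑ v ∈ S, X a v := hbig (φ a)
  have h6 : (0 : ℝ) ≤ φ a := Nat.cast_nonneg _
  linarith

end Pool.Agent.SQ.RV
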